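import Pool.Agent.helper55.GL.Spec

set_option autoImplicit false

namespace Pool.Agent.GL

open SimpleGraph

/-- A lower bound for the Turan number from a graph with an injective family of edges. -/
theorem LIN_aux {V : Type} (H : SimpleGraph V) (n k : ℕ) (G : SimpleGraph (Fin n))
    (hG : H.Free G) (g : Fin k → Sym2 (Fin n)) (hg : Function.Injective g)
    (hgm : ∀ i, g i ∈ G.edgeSet) : k ≤ ex n H := by
  classical
  have h1 : G.edgeFinset.card ≤ extremalNumber (Fintype.card (Fin n)) H :=
    card_edgeFinset_le_extremalNumber hG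
  rw [Fintype.card_fin] at h1
  have h2 : (Finset.univ.image g).card = k := by
    rw [Finset.card_image_of_injective _ hg, Finset.card_univ, Fintype.card_fin]
  have h3 : Finset.univ.image g ⊆ G.edgeFinset := by
    intro x hx
    rw [Finset.mem_image] at hx
    obtain ⟨i, -, rfl⟩ := hx
    rw [mem_edgeFinset]
    exact hgm i
  calc k = (Finset.univ.image g).card := h2.symm
    _ ≤ G.edgeFinset.card := Finset.card_le_card h3
    _ ≤ ex n H := h1

/-- The matching. -/
def LIN_mat (n : ℕ) : SimpleGraph (Fin n) where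
  Adj i j := i ≠ j ∧ (i : ℕ) / 2 = (j : ℕ) / 2
  symm := ⟨fun _ _ h => ⟨h.1.symm, h.2.symm⟩⟩
  loopless := ⟨fun _ h => h.1 rfl⟩

/-- The star. -/
def LIN_star (n : ℕ) : SimpleGraph (Fin n) where
  Adj i j := i ≠ j ∧ ((i : ℕ) = 0 ∨ (j : ℕ) = 0)
  symm := ⟨fun _ _ h => ⟨h.1.symm, h.2.symm⟩⟩
  loopless := ⟨fun _ h => h.1 rfl⟩

theorem LIN_cherry {V : Type} (H : SimpleGraph V) (v x y : V) (hxy : x ≠ y) (hx : H.Adj v x)
    (hy : H.Adj v y) (n : ℕ) (hn : 2 ≤ n) : n ≤ 3 * ex n H := by
  have h1 : n / 2 ≤ ex n H := by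
    refine LIN_aux H n (n / 2) (LIN_mat n) ?_
      (fun i => s(⟨2 * i, by omega⟩, ⟨2 * i + 1, by omega⟩)) ?_ ?_
    · rintro ⟨f⟩
      have e1 := f.toHom.map_adj hx
      have e2 := f.toHom.map_adj hy
      have e3 : f.toHom x ≠ f.toHom y := fun h => hxy (f.injective h)
      obtain ⟨a1, a2⟩ := e1
      obtain ⟨b1, b2⟩ := e2
      have c1 : ((f.toHom v : Fin n) : ℕ) ≠ (f.toHom x : Fin n) := fun h => a1 (Fin.ext h)
      have c2 : ((f.toHom v : Fin n) : ℕ) ≠ (f.toHom y : Fin n) := fun h => b1 (Fin.ext h)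
      have c3 : ((f.toHom x : Fin n) : ℕ) ≠ (f.toHom y : Fin n) := fun h => e3 (Fin.ext h)
      omega
    · intro i j hij
      simp only [Sym2.eq_iff, Fin.mk.injEq] at hij
      ext
      omega
    · intro i
      rw [mem_edgeSet]
      refine ⟨fun h => ?_, ?_⟩
      · have := congrArg Fin.val h
        simp only at this
        omega
      · simp only
        omega
  omega

theorem LIN_disj {V : Type} (H : SimpleGraph V) (a b c d : V) (h1 : H.Adj a b)
    (h2 : H.Adj c d) (hac : a ≠ c) (had : a ≠ d) (hbc : b ≠ c) (hbd : b ≠ d)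
    (n : ℕ) (hn : 2 ≤ n) : n ≤ 3 * ex n H := by
  have h1 : n - 1 ≤ ex n H := by
    refine LIN_aux H n (n - 1) (LIN_star n) ?_
      (fun i => s(⟨0, by omega⟩, ⟨i + 1, by omega⟩)) ?_ ?_
    · rintro ⟨f⟩
      have e1 := (f.toHom.map_adj h1).2
      have e2 := (f.toHom.map_adj h2).2
      have key : ∀ x y : V, x ≠ y → ((f.toHom x : Fin n) : ℕ) = 0 →
          ((f.toHom y : Fin n) : ℕ) = 0 → False := fun x y hxy hx hy =>
        hxy (f.injective (Fin.ext (hx.trans hy.symm)))
      rcases e1 with e1 | e1 <;> rcases e2 with e2 | e2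
      · exact key a c hac e1 e2
      · exact key a d had e1 e2
      · exact key b c hbc e1 e2
      · exact key b d hbd e1 e2
    · intro i j hij
      simp only [Sym2.eq_iff, Fin.mk.injEq] at hij
      ext
      omega
    · intro i
      rw [mem_edgeSet]
      refine ⟨fun h => ?_, Or.inl rfl⟩
      have := congrArg Fin.val h
      simp only at this
      omega
  omega

theorem LIN : LIN_stmt := by
  rintro V H ⟨e, he, e', he', hne⟩ n hn
  induction e using Sym2.ind with | _ a b =>
  induction e' using Sym2.ind with | _ c d =>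
  rw [mem_edgeSet] at he he'
  by_cases hac : a = c
  · subst hac
    exact LIN_cherry H a b d (fun h => hne (by rw [h])) he he' n hn
  by_cases had : a = d
  · subst had
    exact LIN_cherry H a b c (fun h => hne (by rw [h]; exact Sym2.eq_swap)) he he'.symm n hn
  by_cases hbc : b = c
  · subst hbc
    exact LIN_cherry H b a d (fun h => hne (by rw [h]; exact Sym2.eq_swap)) he.symm he' n hn
  by_cases hbd : b = d
  · subst hbd
    exact LIN_cherry H b a c (fun h => hne (by rw [h])) he.symm he'.symm n hn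
  exact LIN_disj H a b c d he he' hac had hbc hbd n hn

end Pool.Agent.GL
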